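import Pool.Agent.U498.TA.Asm

set_option autoImplicit false

/-!
Project TA, job SM: homeomorphisms which change one coordinate are limits of smooth
diffeomorphisms.
-/

open Set Filter Topology Metric Function MeasureTheory
open scoped ContDiff NNReal Convolution

namespace Pool.Agent.U603.TA

open Pool.Agent.U498.TA

variable {n : ℕ}

/-- `t e_i` -/
noncomputable abbrev sg (i : Fin n) (t : ℝ) : E n := EuclideanSpace.single i t

lemma sg_same (i : Fin n) (t : ℝ) : sg i t i = t := by simp

lemma sg_ne {i j : Fin n} (h : j ≠ i) (t : ℝ) : sg i t j = 0 := by simp [h]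

lemma sg_add (i : Fin n) (s t : ℝ) : sg i (s + t) = sg i s + sg i t := by
  ext j
  by_cases h : j = i
  · subst h; simp
  · simp [h]

lemma sg_zero (i : Fin n) : sg i 0 = 0 := by
  ext j
  by_cases h : j = i
  · subst h; simp
  · simp [h]

lemma sg_smul (i : Fin n) (t : ℝ) : sg i t = t • sg i 1 := by
  ext j
  by_cases h : j = i
  · subst h; simp
  · simp [h]

lemma sg_cont (i : Fin n) : Continuous (fun t : ℝ => sg i t) := by
  have : (fun t : ℝ => sg i t) = fun t => t • sg i 1 := by
    funext t; exact sg_smul i t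
  rw [this]
  fun_prop

/-- the sign of the monotonicity is constant -/
lemma exists_sign (i : Fin n) (f : E n → ℝ) (hf : Continuous f)
    (hinj : ∀ x s t, f (x + sg i s) = f (x + sg i t) → s = t) :
    ∃ s : ℝ, s * s = 1 ∧ ∀ x, StrictMono (fun t => s * f (x + sg i t)) := by
  have hc : ∀ x, Continuous (fun t => f (x + sg i t)) := fun x =>
    hf.comp (continuous_const.add (sg_cont i))
  have hi : ∀ x, Injective (fun t => f (x + sg i t)) := fun x s t h => hinj x s t h
  have hmono : ∀ x, StrictMono (fun t => f (x + sg i t)) ∨ StrictAnti (fun t => f (x + sg i t)) :=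
    fun x => (hc x).strictMono_of_inj (hi x)
  let φ : E n → ℝ := fun x => f (x + sg i 1) - f (x + sg i 0)
  have hφ : Continuous φ :=
    (hf.comp (continuous_id.add continuous_const)).sub (hf.comp (continuous_id.add continuous_const))
  have hφ0 : ∀ x, φ x ≠ 0 := by
    intro x h
    have := hinj x 1 0 (sub_eq_zero.1 h)
    exact one_ne_zero this
  have hcase : (∀ x, 0 < φ x) ∨ (∀ x, φ x < 0) := by
    by_contra hcon
    push Not at hcon
    obtain ⟨⟨a, ha⟩, b, hb⟩ := hcon
    obtain ⟨x, hx⟩ := mem_range_of_exists_le_of_exists_ge hφ ⟨a, ha⟩ ⟨b, hb⟩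
    exact hφ0 x hx
  rcases hcase with h | h
  · refine ⟨1, by norm_num, fun x => ?_⟩
    simp only [one_mul]
    rcases hmono x with h1 | h1
    · exact h1
    · have h2 : f (x + sg i 1) < f (x + sg i 0) := h1 zero_lt_one
      have h3 : 0 < f (x + sg i 1) - f (x + sg i 0) := h x
      linarith
  · refine ⟨-1, by norm_num, fun x => ?_⟩
    rcases hmono x with h1 | h1
    · have h2 : f (x + sg i 0) < f (x + sg i 1) := h1 zero_lt_one
      have h3 : f (x + sg i 1) - f (x + sg i 0) < 0 := h x
      linarith
    · intro s t hst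
      have h2 : f (x + sg i t) < f (x + sg i s) := h1 hst
      simp only
      linarith

/-- smooth approximation, monotone in one coordinate -/
lemma exists_moll (i : Fin n) (F : E n → ℝ) (hF : Continuous F)
    (hm : ∀ x t, 0 ≤ t → F x ≤ F (x + sg i t)) (R ε : ℝ) (hε : 0 < ε) :
    ∃ H : E n → ℝ, ContDiff ℝ ∞ H ∧ (∀ x t, 0 ≤ t → H x ≤ H (x + sg i t)) ∧
      ∀ x, ‖x‖ ≤ R → |H x - F x| ≤ ε := by
  have huc : UniformContinuousOn F (closedBall (0 : E n) (R + 1)) :=
    (isCompact_closedBall _ _).uniformContinuousOn_of_continuous hF.continuousOn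
  obtain ⟨δ, hδ, hu⟩ := Metric.uniformContinuousOn_iff.1 huc ε hε
  let φ : ContDiffBump (0 : E n) :=
    { rIn := min δ 1 / 2
      rOut := min δ 1
      rIn_pos := by positivity
      rIn_lt_rOut := half_lt_self (by positivity) }
  have hint : ∀ x, Integrable (fun u => φ.normed volume u * F (x - u)) := by
    intro x
    apply Continuous.integrable_of_hasCompactSupport
    · exact φ.continuous_normed.mul (hF.comp (continuous_const.sub continuous_id))
    · exact φ.hasCompactSupport_normed.mul_right
  have hconv : ∀ x, (φ.normed volume ⋆[ContinuousLinearMap.lsmul ℝ ℝ, volume] F) x =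
      ∫ u, φ.normed volume u * F (x - u) := by
    intro x
    rfl
  refine ⟨φ.normed volume ⋆[ContinuousLinearMap.lsmul ℝ ℝ, volume] F, ?_, ?_, ?_⟩
  · exact φ.hasCompactSupport_normed.contDiff_convolution_left _ φ.contDiff_normed
      hF.locallyIntegrable
  · intro x t ht
    rw [hconv, hconv]
    apply integral_mono (hint _) (hint _)
    intro u
    apply mul_le_mul_of_nonneg_left _ (φ.nonneg_normed u)
    have := hm (x - u) t ht
    have e : x + sg i t - u = x - u + sg i t := by abel
    rw [e]
    exact this
  · intro x hx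
    rw [← Real.dist_eq]
    apply φ.dist_normed_convolution_le hF.aestronglyMeasurable
    intro y hy
    have hy' : dist y x < min δ 1 := hy
    have h1 : dist y x < δ := lt_of_lt_of_le hy' (min_le_left _ _)
    have h2 : dist y x < 1 := lt_of_lt_of_le hy' (min_le_right _ _)
    apply (hu y _ x _ h1).le
    · rw [mem_closedBall, dist_zero_right]
      calc ‖y‖ = ‖x + (y - x)‖ := by congr 1; abel
        _ ≤ ‖x‖ + ‖y - x‖ := norm_add_le _ _
        _ ≤ R + 1 := by
            rw [← dist_eq_norm]
            linarith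
    · rw [mem_closedBall, dist_zero_right]
      linarith

/-- a smooth map with a strictly increasing coordinate is a diffeomorphism -/
lemma diffeo_of (i : Fin n) (s : ℝ) (hs : s * s = 1) (H : E n → ℝ) (hH : ContDiff ℝ ∞ H)
    (hm : ∀ x t, 0 ≤ t → H x ≤ H (x + sg i t)) (δ : ℝ) (hδ : 0 < δ) :
    ∃ d : E n ≃ₜ E n, IsDiffeo ∞ d ∧
      ∀ x, d x = x + sg i (s * (H x + δ * x i) - x i) := by
  have hs0 : s ≠ 0 := by
    rintro rfl
    simp at hs
  set D : E n → E n := fun x => x + sg i (s * (H x + δ * x i) - x i) with hD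
  have hDi : ∀ x, D x i = s * (H x + δ * x i) := by
    intro x
    simp [hD]
  have hDj : ∀ x j, j ≠ i → D x j = x j := by
    intro x j hj
    simp [hD, hj]
  have hproj : ∀ j : Fin n, ContDiff ℝ ∞ (fun x : E n => x j) := by
    intro j
    exact (EuclideanSpace.proj j : E n →L[ℝ] ℝ).contDiff
  have hDs : ContDiff ℝ ∞ D := by
    have e : D = fun x => x + (s * (H x + δ * x i) - x i) • sg i 1 := by
      funext x
      simp only [hD]
      rw [sg_smul]
    rw [e]
    exact contDiff_id.add (((contDiff_const.mul (hH.add (contDiff_const.mul (hproj i)))).sub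
      (hproj i)).smul contDiff_const)
  have hline : ∀ x y : E n, (∀ j, j ≠ i → x j = y j) → y = x + sg i (y i - x i) := by
    intro x y h
    ext j
    by_cases hj : j = i
    · subst hj; simp
    · simp [hj, h j hj]
  have hstrict : ∀ (x : E n) (t : ℝ), 0 < t →
      H x + δ * x i < H (x + sg i t) + δ * (x + sg i t : E n) i := by
    intro x t ht
    have h1 := hm x t ht.le
    have h2 : (x + sg i t : E n) i = x i + t := by simp
    rw [h2]
    nlinarith
  have hinj : Injective D := by
    intro x y h
    have h1 : ∀ j, j ≠ i → x j = y j := by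
      intro j hj
      rw [← hDj x j hj, ← hDj y j hj, h]
    have h2 : H x + δ * x i = H y + δ * y i := by
      have := congrArg (fun z : E n => z i) h
      simp only [hDi] at this
      exact mul_left_cancel₀ hs0 this
    rcases lt_trichotomy (x i) (y i) with h3 | h3 | h3
    · have h4 := hstrict x (y i - x i) (by linarith)
      rw [← hline x y h1] at h4
      linarith
    · rw [hline x y h1, h3, sub_self, sg_zero, add_zero]
    · have h4 := hstrict y (x i - y i) (by linarith)
      rw [← hline y x (fun j hj => (h1 j hj).symm)] at h4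
      linarith
  have hsurj : Surjective D := by
    intro z
    have hc : Continuous (fun t : ℝ => H (z + sg i t) + δ * (z + sg i t : E n) i) := by
      have h1 : Continuous (fun t : ℝ => z + sg i t) := continuous_const.add (sg_cont i)
      exact (hH.continuous.comp h1).add (continuous_const.mul ((hproj i).continuous.comp h1))
    have hv : ∀ t : ℝ, (z + sg i t : E n) i = z i + t := by
      intro t; simp
    have htop : Tendsto (fun t : ℝ => H (z + sg i t) + δ * (z + sg i t : E n) i) atTop atTop := by
      have h1 : Tendsto (fun t : ℝ => H z + δ * (z i + t)) atTop atTop := by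
        apply tendsto_atTop_add_const_left
        apply Tendsto.const_mul_atTop hδ
        exact tendsto_atTop_add_const_left _ _ tendsto_id
      refine tendsto_atTop_mono' _ ?_ h1
      filter_upwards [eventually_ge_atTop (0 : ℝ)] with t ht
      rw [hv]
      have := hm z t ht
      linarith
    have hbot : Tendsto (fun t : ℝ => H (z + sg i t) + δ * (z + sg i t : E n) i) atBot atBot := by
      have h1 : Tendsto (fun t : ℝ => H z + δ * (z i + t)) atBot atBot := by
        apply tendsto_atBot_add_const_left
        apply Tendsto.const_mul_atBot hδ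
        exact tendsto_atBot_add_const_left _ _ tendsto_id
      refine tendsto_atBot_mono' _ ?_ h1
      filter_upwards [eventually_le_atBot (0 : ℝ)] with t ht
      rw [hv]
      have h2 := hm (z + sg i t) (-t) (by linarith)
      have e : z + sg i t + sg i (-t) = z := by
        rw [add_assoc, ← sg_add, add_neg_cancel, sg_zero, add_zero]
      rw [e] at h2
      linarith
    obtain ⟨t, ht⟩ := hc.surjective htop hbot (s * z i)
    refine ⟨z + sg i t, ?_⟩
    ext j
    by_cases hj : j = i
    · subst hj
      rw [hDi]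
      simp only at ht
      rw [ht, ← mul_assoc, hs, one_mul]
    · rw [hDj _ _ hj]
      simp [hj]
  have hder : ∀ x, HasStrictFDerivAt D (fderiv ℝ D x) x := fun x =>
    hDs.contDiffAt.hasStrictFDerivAt (by simp)
  -- the derivative in the direction `e_i`
  have hpos : ∀ x, δ ≤ s * (fderiv ℝ D x (sg i 1)) i := by
    intro x
    have h1 : HasDerivAt (fun t : ℝ => D (x + t • sg i 1)) (fderiv ℝ D x (sg i 1)) 0 := by
      have h2 : HasDerivAt (fun t : ℝ => x + t • sg i 1) (sg i 1) 0 := by
        have := ((hasDerivAt_id (0:ℝ)).smul_const (sg i 1)).const_add x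
        simpa using this
      have h3 : HasFDerivAt D (fderiv ℝ D x) (x + (0:ℝ) • sg i 1) := by
        simpa using (hder x).hasFDerivAt
      exact h3.comp_hasDerivAt (0:ℝ) h2
    have h4 : HasDerivAt (fun t : ℝ => s * (D (x + t • sg i 1)) i)
        (s * (fderiv ℝ D x (sg i 1)) i) 0 := by
      have h5 : HasDerivAt (fun t : ℝ => (D (x + t • sg i 1)) i)
          ((fderiv ℝ D x (sg i 1)) i) 0 :=
        ((EuclideanSpace.proj i : E n →L[ℝ] ℝ).hasFDerivAt.comp_hasDerivAt (0:ℝ) h1)
      exact h5.const_mul s
    have h6 := h4.tendsto_slope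
    have h7 : Tendsto (slope (fun t : ℝ => s * (D (x + t • sg i 1)) i) 0) (𝓝[>] 0)
        (𝓝 (s * (fderiv ℝ D x (sg i 1)) i)) :=
      h6.mono_left (nhdsWithin_mono _ (fun t ht => (ne_of_gt ht)))
    refine ge_of_tendsto h7 ?_
    filter_upwards [self_mem_nhdsWithin] with t ht
    have ht' : (0:ℝ) < t := ht
    rw [slope_def_field, sub_zero, le_div_iff₀ ht']
    rw [zero_smul, add_zero, ← sg_smul, hDi, hDi, ← mul_assoc, ← mul_assoc, hs, one_mul, one_mul]
    have h8 := hm x t ht'.le
    have h9 : (x + sg i t : E n) i = x i + t := by simp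
    rw [h9]
    linarith
  have hcoord : ∀ x v j, j ≠ i → (fderiv ℝ D x v) j = v j := by
    intro x v j hj
    have h1 : HasFDerivAt (fun y : E n => (D y) j)
        ((EuclideanSpace.proj j : E n →L[ℝ] ℝ) ∘L (fderiv ℝ D x)) x :=
      (EuclideanSpace.proj j : E n →L[ℝ] ℝ).hasFDerivAt.comp x (hder x).hasFDerivAt
    have h2 : (fun y : E n => (D y) j) = fun y => (EuclideanSpace.proj j : E n →L[ℝ] ℝ) y := by
      funext y
      exact hDj y j hj
    rw [h2] at h1
    have h3 := h1.unique (EuclideanSpace.proj j : E n →L[ℝ] ℝ).hasFDerivAt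
    exact DFunLike.congr_fun h3 v
  have hker : ∀ x, Injective (fderiv ℝ D x : E n →ₗ[ℝ] E n) := by
    intro x
    rw [← LinearMap.ker_eq_bot, LinearMap.ker_eq_bot']
    intro v hv
    have hv' : fderiv ℝ D x v = 0 := hv
    have h1 : ∀ j, j ≠ i → v j = 0 := by
      intro j hj
      rw [← hcoord x v j hj, hv']
      rfl
    have h2 : v = (v i) • sg i 1 := by
      rw [← sg_smul]
      ext j
      by_cases hj : j = i
      · subst hj; simp
      · simp [hj, h1 j hj]
    have h3 : v i * (fderiv ℝ D x (sg i 1)) i = 0 := by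
      have := congrArg (fun z : E n => z i) hv'
      rw [h2, map_smul] at this
      simpa using this
    have h4 := hpos x
    have h5 : (fderiv ℝ D x (sg i 1)) i ≠ 0 := by
      intro h
      rw [h, mul_zero] at h4
      linarith
    have h6 : v i = 0 := (mul_eq_zero.1 h3).resolve_right h5
    rw [h2, h6, zero_smul]
  let D' : E n → (E n ≃L[ℝ] E n) := fun x =>
    (LinearEquiv.ofInjectiveEndo (fderiv ℝ D x : E n →ₗ[ℝ] E n) (hker x)).toContinuousLinearEquiv
  have hD' : ∀ x, (D' x : E n →L[ℝ] E n) = fderiv ℝ D x := by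
    intro x
    ext v
    rfl
  have hopen : IsOpenMap D :=
    isOpenMap_of_hasStrictFDerivAt_equiv (f' := D') (fun x => by rw [hD']; exact hder x)
  let d : E n ≃ₜ E n := (Equiv.ofBijective D ⟨hinj, hsurj⟩).toHomeomorphOfContinuousOpen
    hDs.continuous hopen
  refine ⟨d, ⟨hDs, ?_⟩, fun x => rfl⟩
  apply Homeomorph.contDiff_symm (f₀' := D') d _ hDs
  intro x
  rw [hD']
  exact (hder x).hasFDerivAt

theorem t_SM : S_SM := by
  intro n g hg R ε hε
  obtain ⟨i, hi⟩ := hg
  have hfc : Continuous (fun x : E n => (g x) i) :=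
    (EuclideanSpace.proj i : E n →L[ℝ] ℝ).continuous.comp g.continuous
  obtain ⟨s, hs, hmono⟩ := exists_sign i (fun x => (g x) i) hfc (by
    intro x a b h
    have h1 : g (x + sg i a) = g (x + sg i b) := by
      ext j
      by_cases hj : j = i
      · subst hj; exact h
      · rw [hi _ j hj, hi _ j hj]
        simp [hj]
    have h2 := g.injective h1
    have h3 := congrArg (fun z : E n => z i) h2
    simpa using h3)
  obtain ⟨H, hH, hHm, hHd⟩ := exists_moll i (fun x => s * (g x) i) (continuous_const.mul hfc) (by
    intro x t ht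
    have h1 := (hmono x).monotone ht
    simp only at h1
    rw [sg_zero, add_zero] at h1
    exact h1) R (ε / 2) (by positivity)
  obtain ⟨d, hd, hdx⟩ := diffeo_of i s hs H hH hHm (ε / (2 * (|R| + 1))) (by positivity)
  refine ⟨d, hd, fun p hp => ?_⟩
  have h1 : d p - g p = sg i (s * (H p + ε / (2 * (|R| + 1)) * p i) - (g p) i) := by
    rw [hdx]
    ext j
    by_cases hj : j = i
    · subst hj; simp
    · have := hi p j hj
      simp [hj, this]
  rw [h1]
  have hns : ∀ t : ℝ, ‖sg i t‖ = |t| := by
    intro t
    have := PiLp.norm_single 2 (fun _ : Fin n => ℝ) i t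
    rw [Real.norm_eq_abs] at this
    exact this
  rw [hns]
  have h2 := hHd p hp
  have h3 : |p i| ≤ |R| + 1 := by
    have h4 := PiLp.norm_apply_le p i
    rw [Real.norm_eq_abs] at h4
    have h5 := le_abs_self R
    linarith
  have hs1 : |s| = 1 := by
    have h4 : |s| * |s| = 1 := by rw [← abs_mul, hs, abs_one]
    nlinarith [abs_nonneg s]
  have e : s * (H p + ε / (2 * (|R| + 1)) * p i) - (g p) i =
      s * ((H p - s * (g p) i) + ε / (2 * (|R| + 1)) * p i) := by
    linear_combination (g p i) * hs
  rw [e, abs_mul, hs1, one_mul]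
  have hR : 0 < |R| + 1 := by positivity
  calc |(H p - s * (g p) i) + ε / (2 * (|R| + 1)) * p i|
      ≤ |H p - s * (g p) i| + |ε / (2 * (|R| + 1)) * p i| := abs_add_le _ _
    _ ≤ ε / 2 + ε / (2 * (|R| + 1)) * (|R| + 1) := by
        rw [abs_mul, abs_of_pos (show 0 < ε / (2 * (|R| + 1)) by positivity)]
        exact add_le_add h2 (mul_le_mul_of_nonneg_left h3 (by positivity))
    _ = ε := by
        field_simp
        ring

end Pool.Agent.U603.TA
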